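import Pool.Agent.W545.CS.Final
import Pool.Agent.W45.CS.FinK
set_option autoImplicit false
open Set MeasureTheory Pool.Agent.W545.Man.St Pool.Agent.W545.CS.St
open scoped Manifold ContDiff

/-!
# Steklov eigenvalues of domains are strictly below the conformal Laplace eigenvalues

For every closed surface `M` with a Riemannian metric `G`, every domain `O` of `M` with nonempty
smooth boundary and every `k ≥ 1`: `σ_k(O, G) L(∂O) < λ_k*(M, [G])`. The definitions are in
`Pool/Agent/W545/CS/Stmt.lean` and `Pool/Agent/W545/Man/Stmt.lean`.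
-/

namespace Pool.Agent.Results.MP_9e30cd_gt.StrictSteklovLaplace

/-- `σ_k(O,G) L(∂O) < λ_k*(M,[G])` for every closed surface `M` (compact, connected, empty boundary),
every metric `G`, every smooth domain `O` and every `k ≥ 1`; `μ` is the area measure of `G` and `ν`
the length measure of `G` on `∂O`. -/
theorem result {M : Type*} [TopologicalSpace M] [T2Space M] [CompactSpace M] [ConnectedSpace M]
    [ChartedSpace (EuclideanHalfSpace (1 + 1)) M] [IsManifold (𝓡∂ (1 + 1)) ∞ M]
    [MeasurableSpace M] [BorelSpace M] (hM : (𝓡∂ (1 + 1)).boundary M = ∅)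
    (G : M → E (1 + 1) → Mat (1 + 1)) (hG : IsMetric G) (O : Set M) (hO : IsSmoothDomain O)
    {μ ν : Measure M} (hμ : IsVolume G μ) (hν : IsLength G (frontier O) ν) {k : ℕ} (hk : 1 ≤ k) :
    steklov k G O μ ν * ν univ < lamStar k G := by
  have hrel := Pool.Agent.W545.Man.ofG_rel G hG
  obtain ⟨hconn, F, hF, rfl, hne, hdF⟩ := hO
  have hreg : ∀ x, F x = 0 → Pool.Agent.W545.CS.bi (Pool.Agent.W545.Man.ofG G hG) F F x ≠ 0 :=
    fun x hx => Pool.Agent.W545.CS.bi_ne_zero _ (hdF x hx)
  rw [Pool.Agent.W545.CS.frontier_dom _ hM hF hreg] at hν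
  have hμ' := (Pool.Agent.W545.Man.rel_isVolume hrel).1 hμ
  have hν' := Pool.Agent.W545.CS.rel_isLen hrel hν
  rw [Pool.Agent.W545.CS.rel_steklov hrel, Pool.Agent.W545.CS.rel_lamStar hrel]
  exact Pool.Agent.W545.CS.strict_surface _ hM hF hreg hne hμ' hν' hconn hk
    (Pool.Agent.W45.CS.sigma_ne_top _ hM hF hreg hμ' hν' hne k)

end Pool.Agent.Results.MP_9e30cd_gt.StrictSteklovLaplace
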